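import Pool.Agent.W46.HM.Stm
import Pool.Agent.W976.HD.Iter

/-!
Project HM: the base case and the step (two-ends oracles).
-/

set_option autoImplicit false

open Finset
open scoped Classical

namespace Pool.Agent.W308.HM

open Pool.Agent.W904.AK Pool.Agent.W46.HD Pool.Agent.W46.HM

theorem psi_nonneg {n : ℕ} (hn : 1 ≤ n) (i j : Fin n) : 0 ≤ psi n i j := by
  unfold psi
  apply Real.log_nonneg
  have hi : ((i : ℕ) : ℝ) < n := by exact_mod_cast i.isLt
  have hj : ((j : ℕ) : ℝ) < n := by exact_mod_cast j.isLt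
  have hi0 : (0 : ℝ) ≤ ((i : ℕ) : ℝ) := Nat.cast_nonneg _
  have hj0 : (0 : ℝ) ≤ ((j : ℕ) : ℝ) := Nat.cast_nonneg _
  have hn1 : (1 : ℝ) ≤ n := by exact_mod_cast hn
  have h1 : max 1 |((i : ℕ) : ℝ) - ((j : ℕ) : ℝ)| ≤ n := by
    refine max_le hn1 ?_
    rw [abs_le]
    constructor <;> linarith
  rw [le_div_iff₀ (lt_of_lt_of_le one_pos (le_max_left _ _)), one_mul]
  exact h1

theorem sep_nonneg {Ω : Type} [Fintype Ω] {n : ℕ} (hn : 1 ≤ n) {p : Ω × Fin n → ℝ}
    (hp : IsLaw p) : 0 ≤ sep p := by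
  have hok : ∀ c, im p Prod.fst c = im p Prod.fst c := fun _ => rfl
  have hrl : IsLaw (glue p p Prod.fst Prod.fst) := glue_law hp hp hok
  unfold sep
  exact Finset.sum_nonneg fun z _ => mul_nonneg (hrl.nonneg z) (psi_nonneg hn _ _)

theorem BASET (hCOST : S_COST) (hG1 : S_G1) : S_BASET := by
  intro d
  refine ⟨3 * d, by positivity, ?_⟩
  intro n Ω _ A D hF p hp
  have hok : ∀ c, im p Prod.fst c = im p Prod.fst c := fun _ => rfl
  have hsep : 0 ≤ sep p := sep_nonneg hF.pos hp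
  set r := glue p p Prod.fst Prod.fst with hr
  have hrl : IsLaw r := glue_law hp hp hok
  -- total entropy
  have h1 : H r (fun z => (z.1, z.2)) = H p id + H p id - H p Prod.fst :=
    H_glue hp hp hok (u := id) (v := id) (fun _ _ _ _ h => congrArg Prod.fst h)
      (fun _ _ _ _ h => congrArg Prod.fst h)
  set f : (Ω × Fin n) × (Ω × Fin n) → (Fin n × (Fin d → ℤ)) × (Fin n × (Fin d → ℤ)) :=
    fun z => ((z.1.2, cell A D z.1.2 z.1.1), (z.2.2, cell A D z.2.2 z.2.1)) with hf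
  set g : (Ω × Fin n) × (Ω × Fin n) → Ω := fun z => z.1.1 with hg
  have h2 : H r (fun z => (z.1, z.2)) ≤ H r (fun z => (f z, g z)) := by
    refine H_mono hrl fun x y hx hy h => ?_
    have hx1 := (glue_supp hx).1
    have hy1 := (glue_supp hy).1
    have a1 : x.1.2 = y.1.2 := congrArg (fun q => q.1.1.1) h
    have a2 : x.2.2 = y.2.2 := congrArg (fun q => q.1.2.1) h
    have a3 : x.1.1 = y.1.1 := congrArg (fun q => q.2) h
    have a4 : x.2.1 = y.2.1 := by rw [← hx1, ← hy1, a3]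
    exact Prod.ext (Prod.ext a3 a1) (Prod.ext a4 a2)
  have h3 : H r (fun z => (f z, g z)) ≤
      H r f + ∑ z, r z * (d * (3 + psi n z.1.2 z.2.2)) := by
    refine hCOST _ _ _ r f g _ hrl fun x hx => ?_
    refine ⟨Finset.univ.filter fun ω => cell A D x.1.2 ω = cell A D x.1.2 x.1.1 ∧
      cell A D x.2.2 ω = cell A D x.2.2 x.2.1, ?_, ?_⟩
    · intro y hy h
      have hy1 := (glue_supp hy).1
      have a1 : y.1.2 = x.1.2 := congrArg (fun q => q.1.1) h
      have a2 : y.2.2 = x.2.2 := congrArg (fun q => q.2.1) h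
      have a3 : cell A D y.1.2 y.1.1 = cell A D x.1.2 x.1.1 := congrArg (fun q => q.1.2) h
      have a4 : cell A D y.2.2 y.2.1 = cell A D x.2.2 x.2.1 := congrArg (fun q => q.2.2) h
      rw [Finset.mem_filter]
      refine ⟨Finset.mem_univ _, ?_, ?_⟩
      · rw [← a1, a3, a1]
      · show cell A D x.2.2 y.1.1 = _
        rw [hy1, ← a4, a2]
    · exact hG1 d n Ω A D hF _ _ x.1.2.isLt x.2.2.isLt _ _ _ fun ω hω =>
        (Finset.mem_filter.mp hω).2
  have h4 : H r f ≤ H r (fun z => (z.1.2, cell A D z.1.2 z.1.1)) +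
      H r (fun z => (z.2.2, cell A D z.2.2 z.2.1)) := by
    refine subadd hrl fun x y _ _ h => ?_
    exact h
  have h5 : H r (fun z => (z.1.2, cell A D z.1.2 z.1.1)) =
      H p (fun z => (z.2, cell A D z.2 z.1)) :=
    H_glue_fst hp hok fun z => (z.2, cell A D z.2 z.1)
  have h6 : H r (fun z => (z.2.2, cell A D z.2.2 z.2.1)) =
      H p (fun z => (z.2, cell A D z.2 z.1)) :=
    H_glue_snd hp hok fun z => (z.2, cell A D z.2 z.1)
  have h7 : H p Prod.snd ≤ Real.log n := by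
    have := H_le_log_card hp (Prod.snd : Ω × Fin n → Fin n) Finset.univ fun x _ =>
      Finset.mem_univ _
    simpa using this
  have h8 : ∑ z, r z * (d * (3 + psi n z.1.2 z.2.2)) = d * (3 + sep p) := by
    have e : ∀ z, r z * (d * (3 + psi n z.1.2 z.2.2)) =
        3 * d * r z + d * (r z * psi n z.1.2 z.2.2) := fun z => by ring
    rw [Finset.sum_congr rfl fun z _ => e z, Finset.sum_add_distrib, ← Finset.mul_sum,
      ← Finset.mul_sum, hrl.total]
    unfold sep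
    ring
  have hd : (0 : ℝ) ≤ d := by positivity
  have h10 : hh A D p = H p (fun z => (z.2, cell A D z.2 z.1)) - H p Prod.snd := rfl
  have h11 : lam p = Real.log n - (H p id - H p Prod.fst) := rfl
  have h12 : aa p = H p Prod.fst := rfl
  have h13 : 0 ≤ (d : ℝ) * sep p := mul_nonneg hd hsep
  rw [h12]
  rw [h8] at h3
  nlinarith

theorem STEPT (hUP : S_UPT) (hKT : S_KTT) (hCFG : S_CFGT) (_hPSI : S_PSI) : S_STEPT := by
  intro d b G hb hG hall
  obtain ⟨C, hC, hO⟩ := hall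
  obtain ⟨C1, hC1, h1⟩ := hUP d b G C hb hG hC
  obtain ⟨C2, hC2, h2⟩ := hKT d b G C hb hG hC
  have hD : 0 < b ^ 2 + 3 * b - 2 := by nlinarith
  refine ⟨(b * C1 + (b - 1) * C2) / (b ^ 2 + 3 * b - 2), ?_, ?_⟩
  · have : 0 ≤ (b - 1) * C2 := mul_nonneg (by linarith) hC2
    have : 0 ≤ b * C1 := mul_nonneg (by linarith) hC1
    positivity
  intro n Ω _ A D hF p hp
  obtain ⟨Θ, _, q, l1, l2, l3, s0, s1, t, t', τ, v, hc⟩ := hCFG Ω d n A D p hF.pos hp
  have k1 := h1 n Ω A D hF (hO n Ω A D hF) p hp Θ q l1 l2 l3 s0 s1 t t' τ v hc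
  have k2 := h2 n Ω A D hF (hO n Ω A D hF) p hp Θ q l1 l2 l3 s0 s1 t t' τ v hc
  rw [hc.pp] at k2
  have k3 := Pool.Agent.W976.HD.pair_le hc.law s0 t t' (fun z => cell A D (t z) (l1 z))
    (fun z => cell A D (t' z) (l3 z))
  have k4 : H q (fun z => (s0 z, t z, t' z, cell A D (t z) (l1 z), cell A D (t' z) (l3 z))) -
      H q (fun z => (s0 z, t z, t' z)) ≤ 2 * hh A D p := by
    have e1 := hc.ht
    have e2 := hc.ht'
    linarith
  rw [add_assoc] at k1 k2
  have k5 := Pool.Agent.W976.HD.step_arith hb k4 k1 k2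
  refine k5.trans (le_of_eq ?_)
  have : (b * ((2 * b + 3 + 2 * G) * lam p + C1 * (1 + sep p)) +
      (b - 1) * ((3 * b + 4 + 2 * G) * lam p + C2 * (1 + sep p))) / (b ^ 2 + 3 * b - 2) =
      (5 * b ^ 2 + 4 * b - 4 + (4 * b - 2) * G) / (b ^ 2 + 3 * b - 2) * lam p +
      (b * C1 + (b - 1) * C2) / (b ^ 2 + 3 * b - 2) * (1 + sep p) := by ring
  rw [this]
  ring

end Pool.Agent.W308.HM
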